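import Mathlib
import Pool.Agent.W811.Nd.Stm

/-!
Project ND: exactly one band.
-/

set_option autoImplicit false

open Set Pool.Agent.W811.Stu Pool.Agent.W811.Nd

namespace Pool.Agent.W540.Nd

theorem aux (F : ℝ → ℝ) (a b κ : ℝ) (hab : a < b) (hκ : 0 < κ) (hc : ContinuousOn F (Icc a b))
    (hi : InjOn F (Icc a b)) (ha : F a < -κ) (hb : κ < F b) :
    ∃ u v, a < u ∧ u < v ∧ v < b ∧ (∀ e ∈ Icc a b, (e ∈ Icc u v ↔ |F e| ≤ κ)) ∧
      F u = -κ ∧ F v = κ := by
  have hmono : StrictMonoOn F (Icc a b) := by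
    rcases hc.strictMonoOn_of_injOn_Icc' hab.le hi with h | h
    · exact h
    · exfalso
      have := h (left_mem_Icc.mpr hab.le) (right_mem_Icc.mpr hab.le) hab
      linarith
  obtain ⟨u, hu, hFu⟩ := intermediate_value_Ioo hab.le hc
    (show -κ ∈ Ioo (F a) (F b) from ⟨ha, by linarith⟩)
  obtain ⟨v, hv, hFv⟩ := intermediate_value_Ioo hab.le hc
    (show κ ∈ Ioo (F a) (F b) from ⟨by linarith, hb⟩)
  have huI : u ∈ Icc a b := Ioo_subset_Icc_self hu
  have hvI : v ∈ Icc a b := Ioo_subset_Icc_self hv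
  have huv : u < v := by
    rw [← hmono.lt_iff_lt huI hvI, hFu, hFv]
    linarith
  refine ⟨u, v, hu.1, huv, hv.2, ?_, hFu, hFv⟩
  intro e he
  rw [abs_le, mem_Icc, ← hmono.le_iff_le huI he, ← hmono.le_iff_le he hvI, hFu, hFv]

/-- **BAND.** -/
theorem band (h : TDist) : TBand := by
  intro lam d m a b hlam hd hab hlt κ hκ hends
  have hlam0 : lam ≠ 0 := hlam.ne'
  set F : ℝ → ℝ := fun e => (orb d (lin lam e) m).y with hF
  have hder : ∀ e, HasDerivAt F (-(Vy d m (lin lam e)) / lam) e := fun e =>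
    hasDeriv_level hlam0 d m e
  have hcont : Continuous F := continuous_iff_continuousAt.mpr fun e => (hder e).continuousAt
  have hne : ∀ e ∈ Icc a b, -(Vy d m (lin lam e)) / lam ≠ 0 := fun e he =>
    div_ne_zero (neg_ne_zero.mpr ((h lam hlam0 d hd m).1 e (hlt e he))) hlam0
  have hinj : InjOn F (Icc a b) := by
    have key : ∀ x ∈ Icc a b, ∀ y ∈ Icc a b, x < y → F x ≠ F y := by
      intro x hx y hy hxy heq
      obtain ⟨c, hc, hc0⟩ := exists_hasDerivAt_eq_zero hxy hcont.continuousOn heq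
        (fun e _ => hder e)
      exact hne c ⟨hx.1.trans hc.1.le, hc.2.le.trans hy.2⟩ hc0
    intro x hx y hy heq
    rcases lt_trichotomy x y with hlt' | heq' | hlt'
    · exact absurd heq (key x hx y hy hlt')
    · exact heq'
    · exact absurd heq.symm (key y hy x hx hlt')
  rcases hends with ⟨ha, hb⟩ | ⟨ha, hb⟩
  · obtain ⟨u, v, h1, h2, h3, h4, h5, h6⟩ := aux F a b κ hab hκ hcont.continuousOn hinj ha hb
    exact ⟨u, v, h1, h2, h3, h4, Or.inl ⟨h5, h6⟩⟩
  · obtain ⟨u, v, h1, h2, h3, h4, h5, h6⟩ := aux (fun e => -F e) a b κ hab hκ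
      hcont.neg.continuousOn (fun x hx y hy hxy => hinj hx hy (neg_injective hxy))
      (by show -F a < -κ; exact neg_lt_neg ha) (by show κ < -F b; exact lt_neg.mpr hb)
    refine ⟨u, v, h1, h2, h3, ?_, Or.inr ⟨?_, ?_⟩⟩
    · intro e he
      have := h4 e he
      simp only [abs_neg] at this
      exact this
    · have h5' : -F u = -κ := h5
      exact neg_injective h5'
    · have h6' : -F v = κ := h6
      show F v = -κ
      linarith

end Pool.Agent.W540.Nd
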